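import Pool.Agent.N84.MD.G
import Pool.Agent.Results.MP_90787a_nt.PolynomialsManyPoints

set_option autoImplicit false

/-!
# Preperiodic points of the rational approximations of almost every real polynomial

The theorem `PolynomialsManyPoints` of this page bounds, for `d ≥ d₀(D, k)`, the number of the integral vectors
`(b, c_0, ..., c_d)` with entries `≤ H` for which `(c_0 + ... + c_d z ^ d) / b` has at least `k` preperiodic points of degree
at most `D` over `ℚ`, by `C H ^ (d + 2 - k)`. This says nothing on sparse sequences of polynomials. Here we show, with the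
Hausdorff-Cantelli lemma, that along extremely sparse sequences there are no exceptions from some point on:

(1) for ALL approximations `c_i ≈ b y_i` (up to `C b ^ κ`) of a real polynomial `y_0 + ... + y_d z ^ d`, outside a set
of `y` of Hausdorff dimension at most `(d + 2 - k) / (1 - κ)`. For `k = 1` and `κ = -1 / (d + 1)` (every `y` has infinitely
many approximations of this quality, by Dirichlet's theorem) this is `(d + 1) ^ 2 / (d + 2) < d + 1`: so for almost all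
`y` no good approximation has any preperiodic point of degree at most `D` besides `∞`, from some point on. For
`k ≥ 2` almost all `y` have, for ALL large `b`, at most `k - 1` such points for all `c` within `C b ^ κ` of `b y`,
`κ < (k - 1) / (d + 1)`, for example for the nearest integers `c_i`.

(2) for ALL numerators near the dilates `N y`, `N` in a sparse set (for example the powers of `2`), and ALL denominators
`b` up to `C N` at once, in particular for integral polynomials.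
-/

open Filter MeasureTheory Set
open scoped ENNReal

namespace Pool.Agent.Results.MP_90787a_nt.ApproximationsOfRealPolynomials

open Pool.Agent.Results.MP_90787a_nt.PolynomialsManyPoints (Coeffs Small poly HasDegree HasPreperiodicPoints)

/-- For every `C`, for ALL large integers `b` and ALL integers `c_0, ..., c_d` with `c_d ≠ 0` and
`|c_i - b y_i| ≤ C b ^ κ` for all `i`, the polynomial `(c_0 + c_1 z + ... + c_d z ^ d) / b` has fewer than `k` preperiodic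
points `z ≠ ∞` of degree at most `D` over `ℚ`. -/
def AllApproximations (D k d : ℕ) (κ : ℝ) (y : Fin (d + 1) → ℝ) : Prop :=
  ∀ C : ℝ, ∀ᶠ b : ℕ in atTop, ∀ c : Fin (d + 1) → ℤ, c (Fin.last d) ≠ 0 →
    (∀ i, |(c i : ℝ) - b * y i| ≤ C * (b : ℝ) ^ κ) → ¬ HasPreperiodicPoints D k ((b : ℤ), c)

/-- a smaller exponent is a weaker statement -/
theorem AllApproximations.mono {D k d : ℕ} {κ κ' : ℝ} {y : Fin (d + 1) → ℝ} (h : AllApproximations D k d κ' y)
    (hκ : κ ≤ κ') : AllApproximations D k d κ y := by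
  intro C
  filter_upwards [h |C|, eventually_ge_atTop 1] with b hb hb1 c hc hcy
  refine hb c hc fun i => (hcy i).trans ?_
  have hb1' : (1 : ℝ) ≤ b := by exact_mod_cast hb1
  have h1 : (b : ℝ) ^ κ ≤ (b : ℝ) ^ κ' := Real.rpow_le_rpow_of_exponent_le hb1' hκ
  calc C * (b : ℝ) ^ κ ≤ |C| * (b : ℝ) ^ κ := mul_le_mul_of_nonneg_right (le_abs_self C) (by positivity)
    _ ≤ |C| * (b : ℝ) ^ κ' := mul_le_mul_of_nonneg_left h1 (abs_nonneg C)

/-- For every `C`, for ALL large `N` in `M`, ALL integers `b ≠ 0` with `|b| ≤ C N` and ALL integers `c_0, ..., c_d` with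
`c_d ≠ 0` and `|c_i - N y_i| ≤ C N ^ κ` for all `i`, the polynomial `(c_0 + c_1 z + ... + c_d z ^ d) / b` has fewer than
`k` preperiodic points `z ≠ ∞` of degree at most `D` over `ℚ`. -/
def AllNumerators (D k d : ℕ) (M : Set ℕ) (κ : ℝ) (y : Fin (d + 1) → ℝ) : Prop :=
  ∀ C : ℝ, ∀ᶠ N : ℕ in atTop, N ∈ M → ∀ b : ℤ, b ≠ 0 → |(b : ℝ)| ≤ C * N → ∀ c : Fin (d + 1) → ℤ,
    c (Fin.last d) ≠ 0 → (∀ i, |(c i : ℝ) - N * y i| ≤ C * (N : ℝ) ^ κ) → ¬ HasPreperiodicPoints D k (b, c)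

/-- a smaller exponent is a weaker statement -/
theorem AllNumerators.mono {D k d : ℕ} {M : Set ℕ} {κ κ' : ℝ} {y : Fin (d + 1) → ℝ}
    (h : AllNumerators D k d M κ' y) (hκ : κ ≤ κ') : AllNumerators D k d M κ y := by
  intro C
  filter_upwards [h |C|, eventually_ge_atTop 1] with N hN hN1 hNM b hb0 hb c hc hcy
  have hN1' : (1 : ℝ) ≤ N := by exact_mod_cast hN1
  refine hN hNM b hb0 (hb.trans (mul_le_mul_of_nonneg_right (le_abs_self C) (by positivity))) c hc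
    fun i => (hcy i).trans ?_
  have h1 : (N : ℝ) ^ κ ≤ (N : ℝ) ^ κ' := Real.rpow_le_rpow_of_exponent_le hN1' hκ
  calc C * (N : ℝ) ^ κ ≤ |C| * (N : ℝ) ^ κ := mul_le_mul_of_nonneg_right (le_abs_self C) (by positivity)
    _ ≤ |C| * (N : ℝ) ^ κ' := mul_le_mul_of_nonneg_left h1 (abs_nonneg C)

/-- there are finitely many small vectors -/
theorem finite_small (d H : ℕ) : {v : Coeffs d | Small H v}.Finite := by
  refine ((Set.finite_Icc (-(H : ℤ)) H).prod (Set.Finite.pi fun _ : Fin (d + 1) => Set.finite_Icc (-(H : ℤ)) H)).subset ?_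
  rintro v ⟨h1, h2⟩
  refine ⟨⟨(abs_le.1 h1).1, (abs_le.1 h1).2⟩, fun i _ => ⟨(abs_le.1 (h2 i)).1, (abs_le.1 (h2 i)).2⟩⟩

/-- the exceptional polynomials of size at most `T` -/
def Bad (D k d : ℕ) (M T : ℝ) : Set (Coeffs d) :=
  {v | |(v.1 : ℝ)| ≤ M * T ∧ (∀ i, |(v.2 i : ℝ)| ≤ M * T) ∧ HasDegree v ∧ HasPreperiodicPoints D k v}

theorem small_of {d : ℕ} {X : ℝ} {v : Coeffs d} (h1 : |(v.1 : ℝ)| ≤ X) (h2 : ∀ i, |(v.2 i : ℝ)| ≤ X) :
    Small ⌊X⌋₊ v := by
  have key : ∀ n : ℤ, |(n : ℝ)| ≤ X → |n| ≤ (⌊X⌋₊ : ℤ) := by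
    intro n hn
    have h3 : n.natAbs ≤ ⌊X⌋₊ := Nat.le_floor (by rw [Nat.cast_natAbs]; push_cast; exact hn)
    rw [Int.abs_eq_natAbs]
    exact_mod_cast h3
  exact ⟨key _ h1, fun i => key _ (h2 i)⟩

/-- the number of the exceptional polynomials -/
theorem bad_count {D k d : ℕ} (hkd : k ≤ d + 2) {C₀ : ℝ} (hcount : ∀ H : ℕ, 1 ≤ H →
      (({v | Small H v ∧ HasDegree v ∧ HasPreperiodicPoints D k v} : Set (Coeffs d)).ncard : ℝ) ≤
        C₀ * (H : ℝ) ^ (d + 2 - k)) {M T : ℝ} (hM1 : 1 ≤ M) (hT : 1 ≤ T) :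
    (Bad D k d M T).Finite ∧ ((Bad D k d M T).ncard : ℝ) ≤ |C₀| * M ^ (d + 2 - k) * T ^ ((d : ℝ) + 2 - k) := by
  have hMT : 1 ≤ M * T := by nlinarith
  have hsub : Bad D k d M T ⊆ {v | Small ⌊M * T⌋₊ v ∧ HasDegree v ∧ HasPreperiodicPoints D k v} :=
    fun v hv => ⟨small_of hv.1 hv.2.1, hv.2.2⟩
  have hfin : ({v | Small ⌊M * T⌋₊ v ∧ HasDegree v ∧ HasPreperiodicPoints D k v} : Set (Coeffs d)).Finite :=
    (finite_small d _).subset fun v hv => hv.1
  refine ⟨hfin.subset hsub, ?_⟩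
  have h1 : ((Bad D k d M T).ncard : ℝ) ≤ (({v | Small ⌊M * T⌋₊ v ∧ HasDegree v ∧ HasPreperiodicPoints D k v} :
      Set (Coeffs d)).ncard : ℝ) := by exact_mod_cast Set.ncard_le_ncard hsub hfin
  refine h1.trans ((hcount _ (Nat.le_floor (by simpa using hMT))).trans ?_)
  have h2 : (⌊M * T⌋₊ : ℝ) ≤ M * T := Nat.floor_le (by linarith)
  have h3 : T ^ ((d : ℝ) + 2 - k) = T ^ (d + 2 - k) := by
    rw [← Real.rpow_natCast, Nat.cast_sub hkd]
    push_cast
    rfl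
  rw [h3]
  calc C₀ * (⌊M * T⌋₊ : ℝ) ^ (d + 2 - k) ≤ |C₀| * (⌊M * T⌋₊ : ℝ) ^ (d + 2 - k) :=
        mul_le_mul_of_nonneg_right (le_abs_self _) (by positivity)
    _ ≤ |C₀| * (M * T) ^ (d + 2 - k) := by gcongr
    _ = |C₀| * M ^ (d + 2 - k) * T ^ (d + 2 - k) := by rw [mul_pow]; ring

/-- fixed constants -/
theorem dim_fixed {D k d : ℕ} (hkd : k ≤ d + 2) {C₀ : ℝ} (hcount : ∀ H : ℕ, 1 ≤ H →
      (({v | Small H v ∧ HasDegree v ∧ HasPreperiodicPoints D k v} : Set (Coeffs d)).ncard : ℝ) ≤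
        C₀ * (H : ℝ) ^ (d + 2 - k)) {κ : ℝ} (hκ : κ < 1) (N : ℕ) :
    dimH {y : Fin (d + 1) → ℝ | (∀ i, |y i| ≤ N) ∧ ¬ ∀ᶠ b : ℕ in atTop, ∀ c : Fin (d + 1) → ℤ, c (Fin.last d) ≠ 0 →
      (∀ i, |(c i : ℝ) - b * y i| ≤ (N + 1) * (b : ℝ) ^ κ) → ¬ HasPreperiodicPoints D k ((b : ℤ), c)} ≤
    ENNReal.ofReal (((d : ℝ) + 2 - k) / (1 - κ)) := by
  have hτ : 0 < 1 - κ := by linarith
  obtain ⟨C, hC⟩ : ∃ C : ℝ, C = (N : ℝ) + 1 := ⟨_, rfl⟩
  have hC1 : 1 ≤ C := by rw [hC]; linarith [(Nat.cast_nonneg N : (0 : ℝ) ≤ N)]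
  have hC0 : 0 < C := by linarith
  obtain ⟨u, hu⟩ : ∃ u : ℝ, u = C ^ (1 / (1 - κ)) := ⟨_, rfl⟩
  have hu0 : 0 < u := by rw [hu]; positivity
  have hu1 : 1 ≤ u := by rw [hu]; exact Real.one_le_rpow hC1 (by positivity)
  have huC : u ^ (1 - κ) = C := by
    rw [hu, ← Real.rpow_mul hC0.le, one_div, inv_mul_cancel₀ hτ.ne', Real.rpow_one]
  obtain ⟨M, hM⟩ : ∃ M : ℝ, M = (N + C) * u := ⟨_, rfl⟩
  have hM1 : 1 ≤ M := by
    rw [hM]
    have : (1 : ℝ) ≤ N + C := by linarith [(Nat.cast_nonneg N : (0 : ℝ) ≤ N)]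
    nlinarith
  have hs : (0 : ℝ) ≤ (d : ℝ) + 2 - k := by
    have : (k : ℝ) ≤ d + 2 := by exact_mod_cast hkd
    linarith
  have hdim := Pool.Agent.N84.MD.scales (X := Fin (d + 1)) (fun (v : Coeffs d) i => (v.2 i : ℝ) / v.1) (Bad D k d M)
    (Bad D k d M) hs hτ
    ⟨0, fun T T' h0 h1 _ v hv => ⟨hv.1.trans (by gcongr), fun i => (hv.2.1 i).trans (by gcongr), hv.2.2⟩⟩
    ⟨|C₀| * M ^ (d + 2 - k), fun T hT => bad_count hkd hcount hM1 hT⟩
  refine le_trans (dimH_mono ?_) hdim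
  rintro y ⟨hy1, hy2⟩ hT
  apply hy2
  have hlim : Tendsto (fun b : ℕ => (b : ℝ) / u) atTop atTop :=
    tendsto_natCast_atTop_atTop.atTop_div_const hu0
  filter_upwards [hlim.eventually hT, eventually_ge_atTop 1] with b hb hb1 c hc hcy hpre
  have hb1' : (1 : ℝ) ≤ b := by exact_mod_cast hb1
  have hb0 : (0 : ℝ) < b := by linarith
  have hMb : M * ((b : ℝ) / u) = (N + C) * b := by
    rw [hM]
    field_simp
  have hκb : (b : ℝ) ^ κ ≤ b := by
    calc (b : ℝ) ^ κ ≤ (b : ℝ) ^ (1 : ℝ) := Real.rpow_le_rpow_of_exponent_le hb1' hκ.le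
      _ = b := Real.rpow_one _
  have hN0 : (0 : ℝ) ≤ N := Nat.cast_nonneg N
  refine hb ((b : ℤ), c) ⟨?_, fun i => ?_, ⟨?_, hc⟩, hpre⟩ fun i => ?_
  · rw [hMb]
    push_cast
    rw [abs_of_pos hb0]
    nlinarith
  · rw [hMb]
    show |(c i : ℝ)| ≤ _
    have h4 : |(c i : ℝ)| ≤ |(c i : ℝ) - b * y i| + |(b : ℝ) * y i| := by
      have := abs_add_le ((c i : ℝ) - b * y i) (b * y i)
      simpa using this
    have h5 : |(b : ℝ) * y i| ≤ N * b := by
      rw [abs_mul, abs_of_pos hb0, mul_comm]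
      exact mul_le_mul_of_nonneg_right (hy1 i) hb0.le
    have h6 := hcy i
    have h7 : ((N : ℝ) + 1) * (b : ℝ) ^ κ ≤ C * b := by
      rw [hC]
      exact mul_le_mul_of_nonneg_left hκb (by linarith)
    calc |(c i : ℝ)| ≤ C * b + N * b := by linarith
      _ = (N + C) * b := by ring
  · show (b : ℤ) ≠ 0
    exact_mod_cast (by omega : b ≠ 0)
  · show |y i - (c i : ℝ) / ((b : ℤ) : ℝ)| ≤ ((b : ℝ) / u) ^ (-(1 - κ))
    have e1 : ((b : ℝ) / u) ^ (-(1 - κ)) = C * (b : ℝ) ^ κ / b := by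
      rw [Real.rpow_neg (by positivity), Real.div_rpow hb0.le hu0.le, huC, Real.rpow_sub hb0, Real.rpow_one]
      have : (b : ℝ) ^ κ ≠ 0 := (Real.rpow_pos_of_pos hb0 κ).ne'
      field_simp
    rw [e1, le_div_iff₀ hb0, Int.cast_natCast, hC]
    calc |y i - (c i : ℝ) / b| * b = |(y i - (c i : ℝ) / b) * b| := by rw [abs_mul, abs_of_pos hb0]
      _ = |(c i : ℝ) - b * y i| := by
          rw [sub_mul, div_mul_cancel₀ _ hb0.ne', abs_sub_comm, mul_comm (y i)]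
      _ ≤ _ := hcy i

/-- the dimension bound for the numerators near dilates -/
theorem dim_numerators {D k d : ℕ} (hkd : k ≤ d + 2) {C₀ : ℝ} (hcount : ∀ H : ℕ, 1 ≤ H →
      (({v | Small H v ∧ HasDegree v ∧ HasPreperiodicPoints D k v} : Set (Coeffs d)).ncard : ℝ) ≤
        C₀ * (H : ℝ) ^ (d + 2 - k)) {κ σ : ℝ} (hκ : κ < 1) (hσ : 0 < σ) (M : Set ℕ)
    (hM : Summable fun N : M => ((N : ℕ) : ℝ) ^ (-σ)) :
    dimH {y : Fin (d + 1) → ℝ | ¬ AllNumerators D k d M κ y} ≤ ENNReal.ofReal (((d : ℝ) + 2 - k + σ) / (1 - κ)) := by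
  have hτ : 0 < 1 - κ := by linarith
  have hs : (0 : ℝ) ≤ (d : ℝ) + 2 - k := by
    have : (k : ℝ) ≤ d + 2 := by exact_mod_cast hkd
    linarith
  refine Pool.Agent.N84.MD.dim_le_of_forall (div_nonneg (by linarith) hτ.le) fun D' hD' => ?_
  have hD0 : 0 < D' := lt_of_le_of_lt (div_nonneg (by linarith) hτ.le) hD'
  obtain ⟨τ, hτ'⟩ : ∃ τ : ℝ, τ = ((d : ℝ) + 2 - k + σ) / D' := ⟨_, rfl⟩
  have hτ0 : 0 < τ := by rw [hτ']; exact div_pos (by linarith) hD0
  have hτ1 : τ < 1 - κ := by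
    rw [hτ', div_lt_iff₀ hD0]
    rw [div_lt_iff₀ hτ] at hD'
    linarith
  have hsub : {y : Fin (d + 1) → ℝ | ¬ AllNumerators D k d M κ y} ⊆ ⋃ n : ℕ,
      {y : Fin (d + 1) → ℝ | (∀ i, |y i| ≤ n) ∧ ¬ ∀ᶠ N : ℕ in atTop, N ∈ M → ∀ b : ℤ, b ≠ 0 →
        |(b : ℝ)| ≤ (n + 1) * N → ∀ c : Fin (d + 1) → ℤ, c (Fin.last d) ≠ 0 →
        (∀ i, |(c i : ℝ) - N * y i| ≤ (n + 1) * (N : ℝ) ^ κ) → ¬ HasPreperiodicPoints D k (b, c)} := by
    intro y hy
    rw [Set.mem_iUnion]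
    rw [Set.mem_ofPred_eq] at hy
    unfold AllNumerators at hy
    push Not at hy
    obtain ⟨C, hC⟩ := hy
    obtain ⟨n, hn⟩ := exists_nat_ge (max C (∑ i, |y i|))
    have h5 : C ≤ (n : ℝ) + 1 := by linarith [(le_max_left C (∑ i, |y i|)).trans hn]
    refine ⟨n, fun i => ?_, fun h => ?_⟩
    · refine le_trans ?_ ((le_max_right _ _).trans hn)
      exact Finset.single_le_sum (f := fun i => |y i|) (fun j _ => abs_nonneg _) (Finset.mem_univ i)
    · obtain ⟨N, ⟨hNM, b, hb0, hb, c, hc1, hc2, hc3⟩, hN⟩ := (hC.and_eventually h).exists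
      exact hN hNM b hb0 (hb.trans (mul_le_mul_of_nonneg_right h5 (by positivity))) c hc1
        (fun i => (hc2 i).trans (mul_le_mul_of_nonneg_right h5 (by positivity))) hc3
  refine le_trans (dimH_mono hsub) ?_
  rw [dimH_iUnion]
  refine iSup_le fun n => ?_
  have hn0 : (0 : ℝ) ≤ n := Nat.cast_nonneg n
  have hM1 : (1 : ℝ) ≤ 2 * n + 2 := by linarith
  have hl := Pool.Agent.N84.MD.levels (X := Fin (d + 1)) (fun (N : ℕ) (v : Coeffs d) i => (v.2 i : ℝ) / N)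
    (fun N => Bad D k d (2 * n + 2) N) hs hσ hτ0
    ⟨|C₀| * (2 * (n : ℝ) + 2) ^ (d + 2 - k), fun N hN => bad_count hkd hcount hM1 (by exact_mod_cast hN)⟩ M hM
  have e1 : ((d : ℝ) + 2 - k + σ) / τ = D' := by
    rw [hτ']
    field_simp
  rw [e1] at hl
  refine le_trans (dimH_mono ?_) hl
  rintro y ⟨hy1, hy2⟩ hT
  apply hy2
  have hlim : Tendsto (fun N : ℕ => ((N : ℝ)) ^ (-(1 - κ - τ))) atTop (nhds 0) :=
    (tendsto_rpow_neg_atTop (by linarith)).comp tendsto_natCast_atTop_atTop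
  filter_upwards [hT, eventually_ge_atTop 1, hlim.eventually (gt_mem_nhds (by positivity : (0 : ℝ) < 1 / (n + 1)))]
    with N hN hN1 hN2 hNM b hb0 hb c hc hcy hpre
  have hN1' : (1 : ℝ) ≤ N := by exact_mod_cast hN1
  have hN0 : (0 : ℝ) < N := by linarith
  have hκN : (N : ℝ) ^ κ ≤ N := by
    calc (N : ℝ) ^ κ ≤ (N : ℝ) ^ (1 : ℝ) := Real.rpow_le_rpow_of_exponent_le hN1' hκ.le
      _ = N := Real.rpow_one _
  refine hN hNM (b, c) ⟨?_, fun i => ?_, ⟨hb0, hc⟩, hpre⟩ fun i => ?_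
  · show |(b : ℝ)| ≤ _
    refine hb.trans ?_
    nlinarith
  · show |(c i : ℝ)| ≤ _
    have h4 : |(c i : ℝ)| ≤ |(c i : ℝ) - N * y i| + |(N : ℝ) * y i| := by
      have := abs_add_le ((c i : ℝ) - N * y i) (N * y i)
      simpa using this
    have h5 : |(N : ℝ) * y i| ≤ n * N := by
      rw [abs_mul, abs_of_pos hN0, mul_comm]
      exact mul_le_mul_of_nonneg_right (hy1 i) hN0.le
    have h6 := hcy i
    have h7 : ((n : ℝ) + 1) * (N : ℝ) ^ κ ≤ (n + 1) * N := mul_le_mul_of_nonneg_left hκN (by linarith)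
    nlinarith
  · show |y i - (c i : ℝ) / N| ≤ (N : ℝ) ^ (-τ)
    have h8 : |y i - (c i : ℝ) / N| * N ≤ (n + 1) * (N : ℝ) ^ κ := by
      calc |y i - (c i : ℝ) / N| * N = |(y i - (c i : ℝ) / N) * N| := by rw [abs_mul, abs_of_pos hN0]
        _ = |(c i : ℝ) - N * y i| := by
            rw [sub_mul, div_mul_cancel₀ _ hN0.ne', abs_sub_comm, mul_comm (y i)]
        _ ≤ _ := hcy i
    have h9 : (N : ℝ) ^ κ = (N : ℝ) ^ (-(1 - κ - τ)) * ((N : ℝ) ^ (-τ) * N) := by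
      nth_rw 4 [← Real.rpow_one (N : ℝ)]
      rw [← Real.rpow_add hN0, ← Real.rpow_add hN0]
      congr 1
      ring
    have h10 : ((n : ℝ) + 1) * (N : ℝ) ^ (-(1 - κ - τ)) ≤ 1 := by
      rw [lt_div_iff₀ (by positivity)] at hN2
      linarith
    have h11 : 0 < (N : ℝ) ^ (-τ) * N := by positivity
    have h12 : |y i - (c i : ℝ) / N| * N ≤ (N : ℝ) ^ (-τ) * N := by
      refine h8.trans ?_
      rw [h9, ← mul_assoc]
      nlinarith
    exact le_of_mul_le_mul_right h12 hN0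

/-- from the dimension to almost all `y` -/
theorem ae_of_dim {d : ℕ} {P : ℝ → (Fin (d + 1) → ℝ) → Prop} (hmono : ∀ y κ κ', P κ' y → κ ≤ κ' → P κ y) {s t : ℝ}
    (hs : 0 < s) (ht : t * ((d : ℝ) + 1) = d + 1 - s)
    (hdim : ∀ κ : ℝ, κ < 1 → dimH {y | ¬ P κ y} ≤ ENNReal.ofReal (s / (1 - κ))) :
    ∀ᵐ y : Fin (d + 1) → ℝ, ∀ κ : ℝ, κ < t → P κ y := by
  have hd1 : (0 : ℝ) < (d : ℝ) + 1 := by positivity
  have ht1 : t < 1 := by
    by_contra h
    push Not at h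
    nlinarith
  have hae : ∀ᵐ y : Fin (d + 1) → ℝ, ∀ q : ℚ, (q : ℝ) < t → P q y := by
    refine ae_all_iff.2 fun q => ?_
    by_cases hq : (q : ℝ) < t
    · have hq1 : (q : ℝ) < 1 := hq.trans ht1
      have h1 := Pool.Agent.N84.MD.null_of_dim (n := d + 1) (hdim q hq1) (div_nonneg hs.le (by linarith)) (by
        rw [div_lt_iff₀ (by linarith)]
        push_cast
        nlinarith)
      have h2 : ∀ᵐ y : Fin (d + 1) → ℝ, ¬ ¬ P q y := by
        rw [ae_iff]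
        simpa using h1
      filter_upwards [h2] with y hy _
      exact not_not.1 hy
    · exact Filter.Eventually.of_forall fun y h => absurd h hq
  filter_upwards [hae] with y hy κ hκ
  obtain ⟨q, hq1, hq2⟩ := exists_rat_btwn hκ
  exact hmono y κ q (hy q hq2) hq1.le

/-- **Rational approximations of real polynomials.** Let `D, k ≥ 1` and `d ≥ d₀(D, k)`.

**(1)** For every `κ < 1` and all real vectors `y = (y_0, ..., y_d)` outside a set of Hausdorff dimension at most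
`(d + 2 - k) / (1 - κ)`: for every `C`, for ALL large integers `b` and ALL integers `c_i` with `|c_i - b y_i| ≤ C b ^ κ` and
`c_d ≠ 0`, the polynomial `(c_0 + ... + c_d z ^ d) / b` has fewer than `k` preperiodic points of degree at most `D`
over `ℚ`. For almost all `y` this holds for all `κ < (k - 1) / (d + 1)`.

**(2)** Let `M` be a set of positive integers for which the sum of the `N ^ (-σ)`, `N ∈ M`, converges, `σ > 0`. For
every `κ < 1` and all `y` outside a set of Hausdorff dimension at most `(d + 2 - k + σ) / (1 - κ)`: for every `C`, for ALL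
large `N` in `M`, ALL integers `c_i` with `|c_i - N y_i| ≤ C N ^ κ` and `c_d ≠ 0` and ALL integers `b ≠ 0` with `|b| ≤ C N`,
the polynomial `(c_0 + ... + c_d z ^ d) / b` has fewer than `k` preperiodic points of degree at most `D` over `ℚ`. For
almost all `y` this holds for all `κ < (k - 1 - σ) / (d + 1)`. -/
theorem result (D k : ℕ) (hD : 1 ≤ D) (hk : 1 ≤ k) : ∃ d₀ : ℕ, ∀ d, d₀ ≤ d →
    ((∀ κ : ℝ, κ < 1 → dimH {y : Fin (d + 1) → ℝ | ¬ AllApproximations D k d κ y} ≤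
        ENNReal.ofReal (((d : ℝ) + 2 - k) / (1 - κ))) ∧
      ∀ᵐ y : Fin (d + 1) → ℝ, ∀ κ : ℝ, κ < ((k : ℝ) - 1) / ((d : ℝ) + 1) → AllApproximations D k d κ y) ∧
    ∀ (M : Set ℕ) (σ : ℝ), 0 < σ → (Summable fun N : M => ((N : ℕ) : ℝ) ^ (-σ)) →
      (∀ κ : ℝ, κ < 1 → dimH {y : Fin (d + 1) → ℝ | ¬ AllNumerators D k d M κ y} ≤
        ENNReal.ofReal (((d : ℝ) + 2 - k + σ) / (1 - κ))) ∧
      ∀ᵐ y : Fin (d + 1) → ℝ, ∀ κ : ℝ, κ < ((k : ℝ) - 1 - σ) / ((d : ℝ) + 1) → AllNumerators D k d M κ y := by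
  obtain ⟨d₀, hd₀⟩ := PolynomialsManyPoints.result D k hD hk
  refine ⟨max d₀ k, fun d hd => ?_⟩
  obtain ⟨c₁, C₀, H₀, _, _, hcount, _⟩ := hd₀ d ((le_max_left _ _).trans hd)
  have hkd : k ≤ d := (le_max_right _ _).trans hd
  have hd1 : (0 : ℝ) < (d : ℝ) + 1 := by positivity
  have hk' : (k : ℝ) ≤ d := by exact_mod_cast hkd
  have main : ∀ κ : ℝ, κ < 1 → dimH {y : Fin (d + 1) → ℝ | ¬ AllApproximations D k d κ y} ≤
      ENNReal.ofReal (((d : ℝ) + 2 - k) / (1 - κ)) := by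
    intro κ hκ
    have hsub : {y : Fin (d + 1) → ℝ | ¬ AllApproximations D k d κ y} ⊆ ⋃ N : ℕ,
        {y : Fin (d + 1) → ℝ | (∀ i, |y i| ≤ N) ∧ ¬ ∀ᶠ b : ℕ in atTop, ∀ c : Fin (d + 1) → ℤ, c (Fin.last d) ≠ 0 →
          (∀ i, |(c i : ℝ) - b * y i| ≤ (N + 1) * (b : ℝ) ^ κ) → ¬ HasPreperiodicPoints D k ((b : ℤ), c)} := by
      intro y hy
      rw [Set.mem_iUnion]
      rw [Set.mem_ofPred_eq] at hy
      unfold AllApproximations at hy
      push Not at hy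
      obtain ⟨C, hC⟩ := hy
      obtain ⟨N, hN⟩ := exists_nat_ge (max C (∑ i, |y i|))
      refine ⟨N, fun i => ?_, fun h => ?_⟩
      · refine le_trans ?_ ((le_max_right _ _).trans hN)
        exact Finset.single_le_sum (f := fun i => |y i|) (fun j _ => abs_nonneg _) (Finset.mem_univ i)
      · obtain ⟨b, ⟨c, hc1, hc2, hc3⟩, hb⟩ := (hC.and_eventually h).exists
        refine hb c hc1 (fun i => (hc2 i).trans ?_) hc3
        have h5 : C ≤ (N : ℝ) + 1 := by linarith [(le_max_left C (∑ i, |y i|)).trans hN]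
        exact mul_le_mul_of_nonneg_right h5 (by positivity)
    refine le_trans (dimH_mono hsub) ?_
    rw [dimH_iUnion]
    exact iSup_le fun N => dim_fixed (hkd.trans (by omega)) hcount hκ N
  refine ⟨⟨main, ae_of_dim (P := fun κ y => AllApproximations D k d κ y) (fun y κ κ' h1 h2 => h1.mono h2)
    (s := (d : ℝ) + 2 - k) (by linarith) (by rw [div_mul_cancel₀ _ hd1.ne']; ring) main⟩, fun M σ hσ hM => ?_⟩
  have main2 : ∀ κ : ℝ, κ < 1 → dimH {y : Fin (d + 1) → ℝ | ¬ AllNumerators D k d M κ y} ≤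
      ENNReal.ofReal (((d : ℝ) + 2 - k + σ) / (1 - κ)) :=
    fun κ hκ => dim_numerators (hkd.trans (by omega)) hcount hκ hσ M hM
  exact ⟨main2, ae_of_dim (P := fun κ y => AllNumerators D k d M κ y) (fun y κ κ' h1 h2 => h1.mono h2)
    (s := (d : ℝ) + 2 - k + σ) (by linarith) (by rw [div_mul_cancel₀ _ hd1.ne']; ring) main2⟩

end Pool.Agent.Results.MP_90787a_nt.ApproximationsOfRealPolynomials
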