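import Mathlib
import Pool.Agent.N820.SU.All
import Pool.Agent.N820.SU.Fam

/-!
# Preperiodic points of bounded degree for 100% of the members of every non-isotrivial family of
rational maps over a number field whose generic member is determined by its multipliers up to
finitely many choices
-/

namespace Pool.Agent.Results.MP_90787a_nt.FiniteFibreFamilies

open Polynomial NumberField Filter Topology

/-- The self-map of the projective line `K ∪ {∞}`, where `none` is `∞`, given by the rational
function `p / q`, where `p` and `q` are coprime and `d` is the larger of their degrees: it sends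
`x` to `p(x) / q(x)`, or to `∞` when `q(x) = 0`, and it sends `∞` to the quotient of the
coefficients of degree `d`, or to `∞` when that of `q` is zero. -/
noncomputable def mapP1 {K : Type*} [Field K] (p q : K[X]) (d : ℕ) : Option K → Option K
  | some x => by classical exact if q.eval x = 0 then none else some (p.eval x / q.eval x)
  | none => by classical exact if q.coeff d = 0 then none else some (p.coeff d / q.coeff d)

/-- The Möbius transformation `x ↦ (a x + b) / (c x + e)` of the projective line `K ∪ {∞}`. -/
noncomputable def moebius {K : Type*} [Field K] (a b c e : K) : Option K → Option K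
  | some x => by classical exact if c * x + e = 0 then none else some ((a * x + b) / (c * x + e))
  | none => by classical exact if c = 0 then none else some (a / c)

/-- `l` is a multiplier of the `n`-th iterate of the map `f = p / q` of degree `d`: for some Möbius
transformation `φ` and some coprime polynomials `P, Q` with larger degree `d ^ n` and `P(0) = 0`
one has `(P / Q) ∘ φ = φ ∘ f ^ n` on the projective line, and `l = P'(0) / Q(0)`. So `φ⁻¹(0)` is a
fixed point of the `n`-th iterate and `l` is the derivative of the iterate at this fixed point, in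
the coordinate `φ`. -/
def IsMultiplier {K : Type*} [Field K] (p q : K[X]) (d n : ℕ) (l : K) : Prop :=
  ∃ a b c e : K, a * e - b * c ≠ 0 ∧ ∃ P Q : K[X], IsCoprime P Q ∧
    max P.natDegree Q.natDegree = d ^ n ∧ P.coeff 0 = 0 ∧ l = P.coeff 1 / Q.coeff 0 ∧
    ∀ z, mapP1 P Q (d ^ n) (moebius a b c e z) = moebius a b c e ((mapP1 p q d)^[n] z)

/-- The maps `p / q` and `u / w` of degree `d` have the same set of multipliers for the `n`-th
iterate, for all `n` with `1 ≤ n ≤ B`. -/
def SameMultipliers {K : Type*} [Field K] (p q u w : K[X]) (d B : ℕ) : Prop :=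
  ∀ n, 1 ≤ n → n ≤ B → ∀ l, IsMultiplier u w d n l ↔ IsMultiplier p q d n l

/-- The maps `p / q` and `u / w` of degree `d` are conjugate by a Möbius transformation. -/
def AreConjugate {K : Type*} [Field K] (p q u w : K[X]) (d : ℕ) : Prop :=
  ∃ a b c e : K, a * e - b * c ≠ 0 ∧
    ∀ z, mapP1 u w d (moebius a b c e z) = moebius a b c e (mapP1 p q d z)

/-- The multiplier fibre of the map `p / q` of degree `d` is finite at level `B`: the rational maps
of degree `d` over `K` which have the same multipliers as `p / q` for all iterates up to the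
`B`-th form at most `B` conjugacy classes (that is, among any `B + 1` of them there are two which
are conjugate). -/
def FiniteFibre {K : Type*} [Field K] (p q : K[X]) (d B : ℕ) : Prop :=
  ∀ u w : Fin (B + 1) → K[X], (∀ i, (IsCoprime (u i) (w i) ∧
    max (u i).natDegree (w i).natDegree = d) ∧ SameMultipliers p q (u i) (w i) d B) →
    ∃ i j, i ≠ j ∧ AreConjugate (u i) (w i) (u j) (w j) d

/-- With `φ(x) = (a x + b) / (c x + e)`, the map `p / q` of degree `d` satisfies
`φ ∘ (p / q) = (u / w) ∘ φ` for some `a, b, c, e` in `K` with `a e ≠ b c` and some polynomials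
`u, w` of degree at most `d`, not both zero, with coefficients algebraic over `F`; the equation is
written with denominators cleared. -/
def IsotrivialOver (F : Type*) {K : Type*} [Field F] [Field K] [Algebra F K] (p q : K[X])
    (d : ℕ) : Prop :=
  ∃ a b c e : K, a * e - b * c ≠ 0 ∧ ∃ u w : K[X], (u ≠ 0 ∨ w ≠ 0) ∧
    u.natDegree ≤ d ∧ w.natDegree ≤ d ∧ (∀ n, IsAlgebraic F (u.coeff n)) ∧
    (∀ n, IsAlgebraic F (w.coeff n)) ∧
    (C a * p + C b * q) * ∑ i ∈ Finset.range (d + 1),
      C (w.coeff i) * (C a * X + C b) ^ i * (C c * X + C e) ^ (d - i) =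
    (C c * p + C e * q) * ∑ i ∈ Finset.range (d + 1),
      C (u.coeff i) * (C a * X + C b) ^ i * (C c * X + C e) ^ (d - i)

/-- The field `k(t_1, ..., t_m)`. -/
abbrev RF (k : Type) [Field k] (m : ℕ) : Type := FractionRing (MvPolynomial (Fin m) k)

/-- The subfield `k(t_j : j ≠ i)` of the field `k(t_1, ..., t_m)`. -/
noncomputable def others (k : Type) [Field k] {m : ℕ} (i : Fin m) : Subfield (RF k m) :=
  (IntermediateField.adjoin k {x : RF k m | ∃ j, j ≠ i ∧
    x = algebraMap (MvPolynomial (Fin m) k) (RF k m) (MvPolynomial.X j)}).toSubfield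

/-- `P ∈ k[t_1, ..., t_m][x]` as a polynomial over `k(t_1, ..., t_m)`. -/
noncomputable def generic {k : Type} [Field k] {m : ℕ} (P : (MvPolynomial (Fin m) k)[X]) :
    (RF k m)[X] :=
  P.map (algebraMap (MvPolynomial (Fin m) k) (RF k m))

/-- `P ∈ k[t_1, ..., t_m][x]` as a polynomial over an algebraic closure of `k(t_1, ..., t_m)`. -/
noncomputable def genBar {k : Type} [Field k] {m : ℕ} (P : (MvPolynomial (Fin m) k)[X]) :
    (AlgebraicClosure (RF k m))[X] :=
  (generic P).map (algebraMap (RF k m) (AlgebraicClosure (RF k m)))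

/-- The specialisation of `P ∈ k[t_1, ..., t_m][x]` at `t = (v_1 / v_0, ..., v_m / v_0)`. -/
noncomputable def special {k : Type} [Field k] {m : ℕ} (v : Fin (m + 1) → 𝓞 k)
    (P : (MvPolynomial (Fin m) k)[X]) : k[X] :=
  P.map (MvPolynomial.eval fun l : Fin m =>
    algebraMap (𝓞 k) k (v l.succ) / algebraMap (𝓞 k) k (v 0))

/-- The preperiodic points of degree at most `B` over `k` of the map `p / q` of degree `d`, in the
projective line over an algebraic closure of `k`. -/
noncomputable def preper {k : Type} [Field k] (p q : k[X]) (d B : ℕ) :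
    Set (Option (AlgebraicClosure k)) :=
  {z | (Set.range fun n : ℕ => (mapP1 (p.map (algebraMap k (AlgebraicClosure k)))
      (q.map (algebraMap k (AlgebraicClosure k))) d)^[n] z).Finite ∧
    ∀ x, z = some x → (minpoly k x).natDegree ≤ B}

/-- The vectors of integers of `k` whose coordinates with respect to the basis `ω` are at most `H`
in absolute value. -/
def box {k : Type} [Field k] {J : Type} (ω : Module.Basis J ℤ (𝓞 k)) (m H : ℕ) :
    Set (Fin (m + 1) → 𝓞 k) :=
  {v | ∀ l j, |ω.repr (v l) j| ≤ (H : ℤ)}

/-- The set `S` contains 100% of the vectors in the boxes. -/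
def AlmostAll {k : Type} [Field k] {J : Type} (ω : Module.Basis J ℤ (𝓞 k)) (m : ℕ)
    (S : Set (Fin (m + 1) → 𝓞 k)) : Prop :=
  Tendsto (fun H : ℕ => (({v | v ∈ box ω m H ∧ v ∈ S}.ncard : ℝ) / ((box ω m H).ncard : ℝ)))
    atTop (𝓝 1)

lemma e_map {K : Type*} [Field K] (p q : K[X]) (d : ℕ) :
    Pool.Agent.N820.SU.mapP1 p q d = mapP1 p q d := by
  funext z
  cases z <;> rfl

lemma e_mob {K : Type*} [Field K] (a b c e : K) :
    Pool.Agent.N820.SU.mob a b c e = moebius a b c e := by
  funext z
  cases z <;> rfl

lemma e_mult {K : Type*} [Field K] (p q : K[X]) (d n : ℕ) (l : K) :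
    Pool.Agent.N820.SU.IsMult p q d n l ↔ IsMultiplier p q d n l := by
  unfold Pool.Agent.N820.SU.IsMult IsMultiplier
  simp only [e_map, e_mob]

lemma e_few {K : Type*} [Field K] (p q : K[X]) (d B : ℕ) (h : FiniteFibre p q d B) :
    Pool.Agent.N820.SU.Few p q d B := by
  intro u w huw
  obtain ⟨i, j, hij, hc⟩ := h u w fun i => ⟨(huw i).1, fun n h1 h2 l => by
    rw [← e_mult, ← e_mult]
    exact (huw i).2 n h1 h2 l⟩
  refine ⟨i, j, hij, ?_⟩
  unfold Pool.Agent.N820.SU.ConjP1
  simp only [e_map, e_mob]
  exact hc

/-- There is a function `N` such that the following holds for every number field `k` (of any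
degree), every integral basis `ω` of `k`, every `d ≥ 2`, `B ≥ 1`, `A` and every `m`. Let `P / Q` be
a rational map of degree `d` over `k(t_1, ..., t_m)`, `P, Q ∈ k[t_1, ..., t_m][x]`, such that over
an algebraic closure of `k(t_1, ..., t_m)`
* `P / Q` is, for some `i`, not conjugate to a map with coefficients algebraic over
  `k(t_j : j ≠ i)`, and
* the multiplier fibre of `P / Q` is finite at level `A`.
Then for 100% of the vectors `(v_0, v_1, ..., v_m)` of integers of `k` (in the boxes given by the
basis `ω`) `v_0 ≠ 0` and the specialisation at `t = (v_1 / v_0, ..., v_m / v_0)` has degree `d` and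
at most `N(B, d, A)` preperiodic points of degree at most `B` over `k`. -/
theorem result : ∃ N : ℕ → ℕ → ℕ → ℕ, ∀ (k : Type) [Field k] [NumberField k] (J : Type)
    [Fintype J] (ω : Module.Basis J ℤ (𝓞 k)) (d B A : ℕ), 2 ≤ d → 1 ≤ B →
    ∀ (m : ℕ) (P Q : (MvPolynomial (Fin m) k)[X]) (i : Fin m),
      max P.natDegree Q.natDegree = d → IsCoprime (generic P) (generic Q) →
      ¬ IsotrivialOver (others k i) (genBar P) (genBar Q) d →
      FiniteFibre (genBar P) (genBar Q) d A →
      AlmostAll ω m {v | v 0 ≠ 0 ∧ IsCoprime (special v P) (special v Q) ∧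
        max (special v P).natDegree (special v Q).natDegree = d ∧
        (preper (special v P) (special v Q) d B).encard ≤ ((N B d A : ℕ) : ℕ∞)} := by
  have e : ∀ (K : Type) [Field K] (p q : K[X]) (d : ℕ),
      mapP1 p q d = Pool.Agent.W277.UH.ratP1 p q d := by
    intro K _ p q d
    funext z
    cases z <;> rfl
  obtain ⟨N, hN⟩ := Pool.Agent.N820.SU.Fam.t_FAM Pool.Agent.N820.SU.All.subp.{0, 0}
  refine ⟨N, ?_⟩
  intro k _ _ J _ ω d B A hd hB m P Q i hmax hco hiso hfin
  have h := hN k J ω d B A hd hB m P Q i hmax hco hiso (e_few _ _ _ _ hfin)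
  have e3 : ∀ p q : k[X], preper p q d B = Pool.Agent.Y706.BI.preperB p q d B := by
    intro p q
    unfold preper Pool.Agent.Y706.BI.preperB
    rw [e]
  simp only [e3]
  exact h

end Pool.Agent.Results.MP_90787a_nt.FiniteFibreFamilies
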