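import Mathlib
import Pool.Agent.N741.UN.Pol

/-!
# Preperiodic points of polynomials `a z ^ d + g(z) + c` of large degree over all number fields of
# bounded degree

For all `k`, `E`, `κ ≥ 1` and `ε > 0` there are `R > k` and `δ > 0` such that for all `Y ≥ 1`, all complex
`a ≠ 0` and all complex polynomials `g` of degree at most `k` the following holds for all but at most
`Y ^ ε` pairs `(d, c)`, where `R ≤ d ≤ Y ^ δ` and `c` is algebraic of absolute height at most `Y ^ d`: if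
`K` is ANY number field of degree at most `κ` in `ℂ` which contains `c`, `a` and the coefficients of `g`,
these being of height at most `Y ^ E`, then `a z ^ d + g(z) + c` has at most `m` preperiodic points in
`K`, where `m` is the number of the `d`-th roots of unity in `K`.

So for `K = ℚ` there is at most one rational preperiodic point if `d` is odd, and there are at most two if
`d` is even, with few exceptions. The bound `m` is sharp: for `g = 0` and all `x` in `K`, if `c` is such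
that `x` is a fixed point, then all the `ζ x` are preperiodic.

Method. The heights of the preperiodic points in `K` are at most a fixed power of `Y`. For nonzero
preperiodic `x`, `y` with different `d`-th powers the number `x ^ d - y ^ d` has height at most a fixed
power of `Y`; so the ratios `x / y`, for all `K` and `d` together, are in a set of at most `Y ^ ε`
numbers by the theorem on sums of powers over all number fields of bounded degree (project HK,
determinant method in an ultraproduct, `Pool/Agent/N741/HB/Thm4.lean`). If `f(x) = α x`, `f(y) = β x`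
and `y = γ x`, then `x` is a root of a nonzero polynomial of degree `d` given by `α`, `β`, `γ`.
-/

set_option autoImplicit false

namespace Pool.Agent.Results.MP_90787a_nt.LargeDegreeAllFields

open Pool.Agent.N741.UN Pool.Agent.Y902.GN Polynomial

/-- the polynomial map `z ↦ a z ^ d + g(z) + c` -/
noncomputable def poly {K : Type} [Field K] (a : K) (g : K[X]) (d : ℕ) (c z : K) : K :=
  a * z ^ d + g.eval z + c

/-- the elements of `K` with finite forward orbit -/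
def preperiodic {K : Type} (f : K → K) : Set K := {z | (Set.range fun n : ℕ => f^[n] z).Finite}

/-- the pairs `(d, c)` with `R ≤ d ≤ Y ^ δ` such that for some number field `K` of degree at most `κ` in
`ℂ` which contains `c` (of absolute height at most `Y ^ d`), `a` and the coefficients of `g` (of
absolute height at most `Y ^ E`), there are more than `m` preperiodic points of `a z ^ d + g(z) + c` in
`K`, `m` the number of the `d`-th roots of unity in `K` (Mathlib's height `Height.mulHeight₁` is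
relative to `K`) -/
def exceptional (κ E R : ℕ) (δ : ℝ) (Y : ℕ) (a : ℂ) (g : ℂ[X]) : Set (ℕ × ℂ) :=
  {p | R ≤ p.1 ∧ (p.1 : ℝ) ≤ (Y : ℝ) ^ δ ∧ ∃ (K : Type) (_ : Field K) (_ : NumberField K)
    (σ : K →+* ℂ) (a' c' : K) (g' : K[X]), Module.finrank ℚ K ≤ κ ∧
    σ a' = a ∧ σ c' = p.2 ∧ g'.map σ = g ∧
    Height.mulHeight₁ c' ≤ ((Y : ℝ) ^ p.1) ^ Module.finrank ℚ K ∧
    Height.mulHeight₁ a' ≤ ((Y : ℝ) ^ E) ^ Module.finrank ℚ K ∧
    (∀ i, Height.mulHeight₁ (g'.coeff i) ≤ ((Y : ℝ) ^ E) ^ Module.finrank ℚ K) ∧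
    ((Nat.card {ζ : K // ζ ^ p.1 = 1} : ℕ) : ℕ∞) < (preperiodic (poly a' g' p.1 c')).encard}

/-- the `d`-th roots of unity -/
theorem rou_finite {K : Type} [Field K] {d : ℕ} (hd : 1 ≤ d) : Finite {ζ : K // ζ ^ d = 1} := by
  classical
  refine Set.Finite.subset (Polynomial.nthRoots d (1 : K)).toFinset.finite_toSet fun ζ hζ => ?_
  rw [Finset.mem_coe, Multiset.mem_toFinset, Polynomial.mem_nthRoots (by omega)]
  exact hζ

/-- the elements with a given `d`-th power -/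
theorem fibre_card {K : Type} [Field K] {d : ℕ} (hd : 1 ≤ d) (S : Finset K) (c : K)
    (hS : ∀ x ∈ S, x ≠ 0 ∧ x ^ d = c) : S.card ≤ Nat.card {ζ : K // ζ ^ d = 1} := by
  classical
  have := rou_finite (K := K) hd
  rcases S.eq_empty_or_nonempty with h0 | ⟨x0, hx0⟩
  · rw [h0, Finset.card_empty]
    exact Nat.zero_le _
  have hc : c ≠ 0 := by
    rw [← (hS x0 hx0).2]
    exact pow_ne_zero _ (hS x0 hx0).1
  rw [← Nat.card_eq_finsetCard]
  refine Nat.card_le_card_of_injective (fun x : S => (⟨x.1 / x0, ?_⟩ : {ζ : K // ζ ^ d = 1})) ?_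
  · rw [div_pow, (hS _ x.2).2, (hS x0 hx0).2, div_self hc]
  · intro x x' h
    have h1 : x.1 / x0 = x'.1 / x0 := congrArg Subtype.val h
    rw [div_left_inj' (hS x0 hx0).1] at h1
    exact Subtype.ext h1

/-- more than `m` nonzero elements have two different `d`-th powers -/
theorem two_classes {K : Type} [Field K] {d : ℕ} (hd : 1 ≤ d) (S : Finset K)
    (h0 : ∀ x ∈ S, x ≠ 0) (hS : Nat.card {ζ : K // ζ ^ d = 1} < S.card) :
    ∃ x ∈ S, ∃ y ∈ S, x ^ d ≠ y ^ d := by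
  classical
  by_contra hcon
  push Not at hcon
  rcases S.eq_empty_or_nonempty with h1 | ⟨x0, hx0⟩
  · rw [h1, Finset.card_empty] at hS
    omega
  · have := fibre_card hd S (x0 ^ d) fun x hx => ⟨h0 x hx, hcon x hx x0 hx0⟩
    omega

/-- the orbits of finitely many preperiodic points -/
theorem orbits {K : Type} {f : K → K} {m : ℕ} (h : ((m : ℕ) : ℕ∞) < (preperiodic f).encard) :
    ∃ S : Set K, S.Finite ∧ (∀ w ∈ S, f w ∈ S) ∧ m < S.ncard := by
  classical
  have h1 : ((m + 1 : ℕ) : ℕ∞) ≤ (preperiodic f).encard := by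
    push_cast
    exact Order.add_one_le_of_lt h
  obtain ⟨S0, hS0, hS0c⟩ := Set.exists_subset_encard_eq h1
  have hS0f : S0.Finite := Set.finite_of_encard_eq_coe hS0c
  obtain ⟨S1, hS1⟩ : ∃ S1 : Set K, S1 = ⋃ z ∈ S0, Set.range fun n : ℕ => f^[n] z := ⟨_, rfl⟩
  have hS1f : S1.Finite := by
    rw [hS1]
    exact hS0f.biUnion fun z hz => hS0 hz
  have hsub : S0 ⊆ S1 := by
    intro z hz
    rw [hS1, Set.mem_iUnion₂]
    exact ⟨z, hz, 0, rfl⟩
  refine ⟨S1, hS1f, ?_, ?_⟩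
  · intro z hz
    rw [hS1, Set.mem_iUnion₂] at hz ⊢
    obtain ⟨z0, hz0, n, rfl⟩ := hz
    exact ⟨z0, hz0, n + 1, Function.iterate_succ_apply' f n z0⟩
  · have h2 : S0.ncard ≤ S1.ncard := Set.ncard_le_ncard hsub hS1f
    have h3 : S0.ncard = m + 1 := by
      rw [Set.ncard_def, hS0c, ENat.toNat_natCast]
    omega

/-- the polynomial with the root `x` -/
noncomputable def Pq (a : ℂ) (g : ℂ[X]) (d : ℕ) (α β γ : ℂ) : ℂ[X] :=
  C (a * (1 - γ ^ d)) * X ^ d + g - g.comp (C γ * X) - C (α - β) * X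

theorem deg1 (γ : ℂ) : (C γ * X : ℂ[X]).natDegree ≤ 1 :=
  (Polynomial.natDegree_C_mul_le _ _).trans Polynomial.natDegree_X_le

theorem Pq_deg (a : ℂ) (g : ℂ[X]) {k : ℕ} (hg : g.natDegree ≤ k) (d : ℕ) (α β γ : ℂ) :
    (Pq a g d α β γ).natDegree ≤ max d (k + 1) := by
  have h1 := deg1 γ
  unfold Pq
  refine (Polynomial.natDegree_sub_le _ _).trans (max_le ?_ ?_)
  · refine (Polynomial.natDegree_sub_le _ _).trans (max_le ?_ ?_)
    · refine (Polynomial.natDegree_add_le _ _).trans (max_le ?_ ?_)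
      · exact (Polynomial.natDegree_C_mul_X_pow_le _ _).trans (le_max_left _ _)
      · exact hg.trans ((Nat.le_succ k).trans (le_max_right _ _))
    · rw [Polynomial.natDegree_comp]
      calc g.natDegree * (C γ * X : ℂ[X]).natDegree ≤ k * 1 := Nat.mul_le_mul hg h1
        _ ≤ max d (k + 1) := by rw [mul_one]; exact (Nat.le_succ k).trans (le_max_right _ _)
  · exact (deg1 _).trans ((Nat.le_add_left 1 k).trans (le_max_right _ _))

theorem Pq_ne {a : ℂ} {g : ℂ[X]} {k d : ℕ} (hg : g.natDegree ≤ k) (hd : k < d) (hd2 : 2 ≤ d)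
    {α β γ : ℂ} (ha : a ≠ 0) (hγ : γ ^ d ≠ 1) : Pq a g d α β γ ≠ 0 := by
  intro h0
  have h1 := congrArg (fun p : ℂ[X] => p.coeff d) h0
  have e1 : g.coeff d = 0 := Polynomial.coeff_eq_zero_of_natDegree_lt (by omega)
  have e2 : (g.comp (C γ * X)).coeff d = 0 := by
    refine Polynomial.coeff_eq_zero_of_natDegree_lt ?_
    rw [Polynomial.natDegree_comp]
    calc g.natDegree * (C γ * X : ℂ[X]).natDegree ≤ k * 1 :=
          Nat.mul_le_mul hg (deg1 γ)
      _ < d := by omega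
  have e3 : (X : ℂ[X]).coeff d = 0 := by
    rw [Polynomial.coeff_X, if_neg (by omega)]
  unfold Pq at h1
  simp only [Polynomial.coeff_sub, Polynomial.coeff_add, Polynomial.coeff_C_mul,
    Polynomial.coeff_X_pow, e1, e2, e3, if_true, Polynomial.coeff_zero] at h1
  have h2 : a * (1 - γ ^ d) = 0 := by linear_combination h1
  rcases mul_eq_zero.1 h2 with h3 | h3
  · exact ha h3
  · exact hγ (sub_eq_zero.1 h3).symm

/-- `c` is a function of `d`, three ratios and a root of a polynomial -/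
theorem param {κ R k E : ℕ} {δ : ℝ} {Y d Z : ℕ} {K : Type} [Field K] [NumberField K] {a c : K}
    {g : K[X]} {S : Set K} (h : InvP κ R δ Y k E d a c g S) (hY : 1 ≤ Y) (hδ : 0 ≤ δ)
    (hκ : 1 ≤ κ) (hZ : Z = (8 * (k + 1) * Y) ^ ((ex1 k E + 1) * κ)) (σ : K →+* ℂ)
    (hS : Nat.card {ζ : K // ζ ^ d = 1} < S.ncard) (L : Set ℂ) (hL : L = Rat κ R δ Z) :
    (σ c = 0 - (g.map σ).eval 0 ∨ ∃ q ∈ L, σ c = q - (g.map σ).eval 0) ∨
    ∃ α β γ x : ℂ, (α ∈ L ∨ ∃ q ∈ L, ∃ q' ∈ L, α = q * q') ∧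
      (β ∈ L ∨ ∃ q ∈ L, ∃ q' ∈ L, β = q * q') ∧ (γ ∈ L ∨ ∃ q ∈ L, ∃ q' ∈ L, γ = q * q') ∧
      x ∈ (Pq (σ a) (g.map σ) d α β γ).roots ∧
      σ c = α * x - σ a * x ^ d - (g.map σ).eval x := by
  classical
  have hd1 := h.d1
  have hkd : k < d := by
    have : k ≤ (k + 1) ^ 2 := by nlinarith
    omega
  have hd2 : 2 ≤ d := by omega
  by_cases h0 : (0 : K) ∈ S
  · left
    have h1 := h.inv 0 h0
    rw [zero_pow (by omega), mul_zero, zero_add] at h1
    have e1 : (g.map σ).eval 0 = σ (g.eval 0) := by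
      rw [← map_zero σ, Polynomial.eval_map_apply]
    by_cases h2 : g.eval 0 + c = 0
    · left
      rw [e1, ← map_zero σ, ← map_sub]
      congr 1
      linear_combination h2
    · right
      refine ⟨σ (g.eval 0 + c), by rw [hL]; exact h.value hY hδ hκ hZ σ h0 h1 h2, ?_⟩
      rw [e1, ← map_sub]
      congr 1
      ring
  right
  have hne : ∀ x ∈ S, x ≠ 0 := fun x hx hx0 => h0 (hx0 ▸ hx)
  obtain ⟨S', hS'⟩ := h.fin.exists_finset_coe
  obtain ⟨x, hx, y, hy, hxy⟩ := two_classes (d := d) (by omega) S'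
    (fun x hx => hne x (by rw [← hS']; exact hx))
    (by rw [← Set.ncard_coe_finset, hS']; exact hS)
  have hx : x ∈ S := by rw [← hS']; exact hx
  have hy : y ∈ S := by rw [← hS']; exact hy
  have key1 : ∀ u ∈ S, ∀ v ∈ S, u ^ d ≠ v ^ d → σ (u / v) ∈ L := by
    intro u hu v hv huv
    rw [hL]
    exact h.ratio hY hδ hκ hZ σ hu hv (hne u hu) (hne v hv) huv
  have key2 : ∀ u ∈ S, ∀ v ∈ S, σ (u / v) ∈ L ∨ ∃ q ∈ L, ∃ q' ∈ L, σ (u / v) = q * q' := by
    intro u hu v hv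
    by_cases huv : u ^ d = v ^ d
    · right
      obtain ⟨w, hw, h1⟩ : ∃ w ∈ S, u ^ d ≠ w ^ d := by
        by_cases c1 : u ^ d = x ^ d
        · exact ⟨y, hy, by rw [c1]; exact hxy⟩
        · exact ⟨x, hx, c1⟩
      refine ⟨_, key1 u hu w hw h1, _, key1 w hw v hv (by rw [← huv]; exact h1.symm), ?_⟩
      rw [← map_mul]
      congr 1
      have := hne w hw
      have := hne v hv
      field_simp
    · exact Or.inl (key1 u hu v hv huv)
  obtain ⟨F, hF⟩ : ∃ F : K → K, F = fun z => a * z ^ d + g.eval z + c := ⟨_, rfl⟩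
  have hFS : ∀ z ∈ S, F z ∈ S := fun z hz => by rw [hF]; exact h.inv z hz
  have hx0 := hne x hx
  have hγ : σ (y / x) ^ d ≠ 1 := by
    rw [← map_pow, ← map_one σ]
    intro h1
    have h2 := σ.injective h1
    rw [div_pow, div_eq_one_iff_eq (pow_ne_zero _ hx0)] at h2
    exact hxy h2.symm
  have hg' : (g.map σ).natDegree ≤ k := Polynomial.natDegree_map_le.trans h.gk
  have ha' : σ a ≠ 0 := (map_ne_zero σ).2 h.a0
  refine ⟨σ (F x / x), σ (F y / x), σ (y / x), σ x, key2 _ (hFS x hx) _ hx,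
    key2 _ (hFS y hy) _ hx, key2 _ hy _ hx, ?_, ?_⟩
  · rw [Polynomial.mem_roots (Pq_ne hg' hkd hd2 ha' hγ), Polynomial.IsRoot.def]
    unfold Pq
    simp only [Polynomial.eval_sub, Polynomial.eval_add, Polynomial.eval_mul, Polynomial.eval_C,
      Polynomial.eval_pow, Polynomial.eval_X, Polynomial.eval_comp]
    rw [← map_mul σ (y / x) x, Polynomial.eval_map_apply, Polynomial.eval_map_apply,
      ← map_pow, ← map_one σ, ← map_sub, ← map_mul, ← map_pow, ← map_mul, ← map_add, ← map_sub,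
      ← map_sub, ← map_mul, ← map_sub, ← map_zero σ]
    congr 1
    have e1 : y / x * x = y := div_mul_cancel₀ _ hx0
    have e2 : (F x / x - F y / x) * x = F x - F y := by
      field_simp
    have e3 : a * (1 - (y / x) ^ d) * x ^ d = a * (x ^ d - y ^ d) := by
      rw [div_pow]
      have : x ^ d ≠ 0 := pow_ne_zero _ hx0
      field_simp
    rw [e1, e2, e3, hF]
    ring
  · rw [Polynomial.eval_map_apply, ← map_mul, ← map_pow, ← map_mul, ← map_sub, ← map_sub]
    congr 1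
    rw [div_mul_cancel₀ _ hx0, hF]
    ring

/-- **Few polynomials have more than `m` preperiodic points.** -/
theorem result (k E κ : ℕ) (ε : ℝ) (hκ : 1 ≤ κ) (hε : 0 < ε) :
    ∃ (R : ℕ) (δ : ℝ), k < R ∧ 0 < δ ∧ ∀ Y : ℕ, 1 ≤ Y → ∀ (a : ℂ) (g : ℂ[X]), a ≠ 0 →
      g.natDegree ≤ k → (exceptional κ E R δ Y a g).Finite ∧
      ((exceptional κ E R δ Y a g).ncard : ℝ) ≤ (Y : ℝ) ^ ε := by
  classical
  obtain ⟨W, hW⟩ : ∃ W : ℕ, W = (ex1 k E + 1) * κ := ⟨_, rfl⟩
  have hW0 : 0 < W := by rw [hW]; positivity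
  have hWR : (1 : ℝ) ≤ W := by exact_mod_cast hW0
  obtain ⟨η, hη⟩ : ∃ η : ℝ, η = ε / (24 * W) := ⟨_, rfl⟩
  have hη0 : 0 < η := by rw [hη]; positivity
  obtain ⟨R1, δ1, hδ1, H⟩ := rat_card κ η hη0
  obtain ⟨R2, hR2⟩ : ∃ R2, R2 = 2 * ((k + 1) ^ 2 + 1) + E * (k + 2) + 8 * (k + 1) + 100 := ⟨_, rfl⟩
  refine ⟨max R1 R2, min δ1 (min (ε / 8) 1), lt_of_lt_of_le (by rw [hR2]; omega)
    (le_max_right _ _), lt_min hδ1 (lt_min (by positivity) one_pos),
    fun Y hY a g ha hg => fin_of_bound _ _ fun T hT => ?_⟩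
  obtain ⟨δ, hδ⟩ : ∃ δ, δ = min δ1 (min (ε / 8) 1) := ⟨_, rfl⟩
  have hδ0 : 0 < δ := by rw [hδ]; exact lt_min hδ1 (lt_min (by positivity) one_pos)
  have hδε : δ ≤ ε / 8 := by rw [hδ]; exact (min_le_right _ _).trans (min_le_left _ _)
  have hδ1' : δ ≤ 1 := by rw [hδ]; exact (min_le_right _ _).trans (min_le_right _ _)
  have hδδ : δ ≤ δ1 := by rw [hδ]; exact min_le_left _ _
  rw [← hδ] at hT
  have hY1 : (1 : ℝ) ≤ (Y : ℝ) := by exact_mod_cast hY
  have hY0 : (0 : ℝ) < (Y : ℝ) := by linarith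
  rcases Finset.eq_empty_or_nonempty T with h0 | ⟨p0, hp0⟩
  · rw [h0, Finset.card_empty, Nat.cast_zero]
    positivity
  obtain ⟨Z, hZ⟩ : ∃ Z : ℕ, Z = (8 * (k + 1) * Y) ^ ((ex1 k E + 1) * κ) := ⟨_, rfl⟩
  have hZ1 : 1 ≤ Z := by rw [hZ]; exact Nat.one_le_pow _ _ (by positivity)
  obtain ⟨hLf, hLc⟩ := H Z hZ1
  obtain ⟨L, hL⟩ := hLf.exists_finset_coe
  rw [← hL, Set.ncard_coe_finset] at hLc
  obtain ⟨L2, hL2⟩ : ∃ L2 : Finset ℂ, L2 = L ∪ (L ×ˢ L).image fun q => q.1 * q.2 := ⟨_, rfl⟩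
  obtain ⟨M, hM⟩ : ∃ M : ℕ, M = ⌊(Y : ℝ) ^ δ⌋₊ + 1 := ⟨_, rfl⟩
  have hYδ : (1 : ℝ) ≤ (Y : ℝ) ^ δ := Real.one_le_rpow hY1 hδ0.le
  have hMY : (M : ℝ) ≤ 2 * (Y : ℝ) ^ δ := by
    have h2 := Nat.floor_le (by positivity : (0 : ℝ) ≤ (Y : ℝ) ^ δ)
    rw [hM]
    push_cast
    linarith
  have hbig : (R2 : ℝ) ≤ (Y : ℝ) ^ δ := by
    obtain ⟨h1, h2, -⟩ := hT p0 hp0
    have h3 : R2 ≤ p0.1 := (le_max_right _ _).trans h1
    calc (R2 : ℝ) ≤ (p0.1 : ℝ) := by exact_mod_cast h3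
      _ ≤ _ := h2
  have hkM : k + 1 ≤ M := by
    have h1 : ((k + 1 : ℕ) : ℝ) ≤ (Y : ℝ) ^ δ := by
      refine le_trans ?_ hbig
      exact_mod_cast (by rw [hR2]; nlinarith : k + 1 ≤ R2)
    rw [hM]
    exact (Nat.le_floor h1).trans (Nat.le_succ _)
  -- the parametrisation
  have hsub : T ⊆ ((Finset.range M ×ˢ (insert 0 L)).image fun q => (q.1, q.2 - g.eval 0)) ∪
      ((Finset.range M ×ˢ (L2 ×ˢ (L2 ×ˢ L2))).biUnion fun q =>
        (Pq a g q.1 q.2.1 q.2.2.1 q.2.2.2).roots.toFinset.image fun x =>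
          (q.1, q.2.1 * x - a * x ^ q.1 - g.eval x)) := by
    intro p hp
    obtain ⟨h1, h2, K, _, _, σ, a', c', g', h3, h4, h5, h6, h7, h8, h9, h10⟩ := hT p hp
    obtain ⟨d, c⟩ := p
    dsimp only at h1 h2 h5 h7 h10
    have hdR2 : R2 ≤ d := (le_max_right _ _).trans h1
    have ha' : a' ≠ 0 := by
      rintro rfl
      rw [map_zero] at h4
      exact ha h4.symm
    have hg' : g'.natDegree ≤ k := by
      rw [← h6, Polynomial.natDegree_map_eq_of_injective σ.injective] at hg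
      exact hg
    obtain ⟨S, hSf, hSi, hSc⟩ := orbits h10
    have hinv : InvP κ R1 δ1 Y k E d a' c' g' S :=
      { fin := hSf
        inv := hSi
        a0 := ha'
        dR := (le_max_left _ _).trans h1
        dδ := h2.trans (Real.rpow_le_rpow_of_exponent_le hY1 hδδ)
        deg := h3
        gk := hg'
        ha := h8
        hg := h9
        hc := h7
        d1 := by rw [hR2] at hdR2; omega
        d2 := by rw [hR2] at hdR2; omega }
    have hdM : d ∈ Finset.range M := by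
      rw [Finset.mem_range, hM]
      exact Nat.lt_succ_of_le (Nat.le_floor h2)
    have hcov : ∀ α : ℂ, (α ∈ (L : Set ℂ) ∨ ∃ q ∈ (L : Set ℂ), ∃ q' ∈ (L : Set ℂ), α = q * q') →
        α ∈ L2 := by
      rintro α (h | ⟨q, hq, q', hq', rfl⟩)
      · rw [hL2]
        exact Finset.mem_union_left _ h
      · rw [hL2]
        exact Finset.mem_union_right _ (Finset.mem_image.2 ⟨(q, q'),
          Finset.mem_product.2 ⟨hq, hq'⟩, rfl⟩)
    have hpar := param hinv hY hδ1.le hκ hZ σ hSc L hL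
    rw [h4, h5, h6] at hpar
    rcases hpar with (h11 | ⟨q, hq, h11⟩) | ⟨α, β, γ, x, h11, h12, h13, h14, h15⟩
    · refine Finset.mem_union_left _ (Finset.mem_image.2 ⟨(d, 0), Finset.mem_product.2 ⟨hdM,
        Finset.mem_insert_self _ _⟩, ?_⟩)
      rw [h11]
    · refine Finset.mem_union_left _ (Finset.mem_image.2 ⟨(d, q), Finset.mem_product.2 ⟨hdM,
        Finset.mem_insert_of_mem hq⟩, ?_⟩)
      rw [h11]
    · refine Finset.mem_union_right _ (Finset.mem_biUnion.2 ⟨(d, (α, (β, γ))),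
        Finset.mem_product.2 ⟨hdM, Finset.mem_product.2 ⟨hcov _ h11, Finset.mem_product.2
          ⟨hcov _ h12, hcov _ h13⟩⟩⟩, Finset.mem_image.2 ⟨x, Multiset.mem_toFinset.2 h14, ?_⟩⟩)
      rw [h15]
  -- the count
  have hcard : T.card ≤ M * (L.card + 1) + M * L2.card ^ 3 * M := by
    refine (Finset.card_le_card hsub).trans ((Finset.card_union_le _ _).trans (Nat.add_le_add ?_ ?_))
    · refine Finset.card_image_le.trans ?_
      rw [Finset.card_product, Finset.card_range]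
      exact Nat.mul_le_mul_left _ (Finset.card_insert_le _ _)
    · refine (Finset.card_biUnion_le_card_mul _ _ M fun q hq => ?_).trans ?_
      · refine Finset.card_image_le.trans ((Multiset.toFinset_card_le _).trans
          ((Polynomial.card_roots' _).trans ((Pq_deg a g hg _ _ _ _).trans (max_le ?_ hkM))))
        exact (Finset.mem_range.1 (Finset.mem_product.1 hq).1).le
      · rw [Finset.card_product, Finset.card_range, Finset.card_product, Finset.card_product]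
        apply le_of_eq
        ring
  have hL2c : L2.card ≤ L.card + L.card ^ 2 := by
    rw [hL2]
    refine (Finset.card_union_le _ _).trans (Nat.add_le_add_left ?_ _)
    refine Finset.card_image_le.trans ?_
    rw [Finset.card_product, pow_two]
  obtain ⟨Q, hQ⟩ : ∃ Q : ℝ, Q = (Z : ℝ) ^ η := ⟨_, rfl⟩
  have hZR : (1 : ℝ) ≤ (Z : ℝ) := by exact_mod_cast hZ1
  have hQ1 : 1 ≤ Q := by rw [hQ]; exact Real.one_le_rpow hZR hη0.le
  rw [← hQ] at hLc
  have hL2Q : (L2.card : ℝ) ≤ 2 * Q ^ 2 := by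
    have h1 : (L2.card : ℝ) ≤ (L.card : ℝ) + (L.card : ℝ) ^ 2 := by exact_mod_cast hL2c
    have h2 : (L.card : ℝ) ^ 2 ≤ Q ^ 2 := pow_le_pow_left₀ (Nat.cast_nonneg _) hLc 2
    nlinarith
  have hM1 : (1 : ℝ) ≤ M := by
    have : 1 ≤ M := by omega
    exact_mod_cast this
  have hTc : (T.card : ℝ) ≤ 40 * ((Y : ℝ) ^ δ) ^ 2 * Q ^ 6 := by
    have h1 : (T.card : ℝ) ≤ (M : ℝ) * ((L.card : ℝ) + 1) + (M : ℝ) * (L2.card : ℝ) ^ 3 * M := by
      exact_mod_cast hcard
    have h2 : (L2.card : ℝ) ^ 3 ≤ (2 * Q ^ 2) ^ 3 := pow_le_pow_left₀ (Nat.cast_nonneg _) hL2Q 3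
    have h3 : (2 * Q ^ 2) ^ 3 = 8 * Q ^ 6 := by ring
    have h4 : Q ≤ Q ^ 6 := le_self_pow₀ hQ1 (by norm_num)
    have h5 : (1 : ℝ) ≤ Q ^ 6 := one_le_pow₀ hQ1
    have h6 : (L.card : ℝ) + 1 ≤ 2 * Q ^ 6 := by linarith
    have h7 : (M : ℝ) ^ 2 ≤ (2 * (Y : ℝ) ^ δ) ^ 2 := pow_le_pow_left₀ (by positivity) hMY 2
    calc (T.card : ℝ) ≤ (M : ℝ) * ((L.card : ℝ) + 1) + (M : ℝ) * (L2.card : ℝ) ^ 3 * M := h1
      _ ≤ (M : ℝ) * M * (2 * Q ^ 6) + (M : ℝ) * (8 * Q ^ 6) * M := by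
          refine add_le_add ?_ ?_
          · refine mul_le_mul ?_ h6 (by positivity) (by positivity)
            nlinarith
          · refine mul_le_mul_of_nonneg_right (mul_le_mul_of_nonneg_left (h2.trans h3.le)
              (by positivity)) (by positivity)
      _ = (M : ℝ) ^ 2 * (10 * Q ^ 6) := by ring
      _ ≤ (2 * (Y : ℝ) ^ δ) ^ 2 * (10 * Q ^ 6) := mul_le_mul_of_nonneg_right h7 (by positivity)
      _ = _ := by ring
  have hY2 : 2 ≤ Y := by
    by_contra h
    have h1 : Y = 1 := by omega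
    rw [h1, Nat.cast_one, Real.one_rpow] at hbig
    have h2 : (100 : ℝ) ≤ R2 := by
      exact_mod_cast (by rw [hR2]; omega : 100 ≤ R2)
    linarith
  have hZY : (Z : ℝ) ≤ ((Y : ℝ) ^ δ * Y) ^ W := by
    rw [hZ, ← hW]
    push_cast
    refine pow_le_pow_left₀ (by positivity) (mul_le_mul_of_nonneg_right ?_ hY0.le) W
    refine le_trans ?_ hbig
    have h2 : 8 * (k + 1) ≤ R2 := by rw [hR2]; omega
    exact_mod_cast h2
  have hZY2 : (Z : ℝ) ≤ (Y : ℝ) ^ ((1 + δ) * W) := by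
    refine hZY.trans (le_of_eq ?_)
    rw [← Real.rpow_natCast, Real.rpow_mul hY0.le, Real.rpow_add hY0, Real.rpow_one, mul_comm]
  have hQ6 : Q ^ 6 ≤ (Y : ℝ) ^ (ε / 4 * (1 + δ)) := by
    calc Q ^ 6 = (Z : ℝ) ^ (η * 6) := by
          rw [hQ, ← Real.rpow_natCast, ← Real.rpow_mul (by positivity)]
          norm_num
      _ ≤ ((Y : ℝ) ^ ((1 + δ) * W)) ^ (η * 6) :=
          Real.rpow_le_rpow (by positivity) hZY2 (by positivity)
      _ = (Y : ℝ) ^ (ε / 4 * (1 + δ)) := by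
          rw [← Real.rpow_mul hY0.le, hη]
          congr 1
          field_simp
          ring
  have h40 : (40 : ℝ) ≤ (Y : ℝ) ^ δ := by
    refine le_trans ?_ hbig
    exact_mod_cast (by rw [hR2]; omega : 40 ≤ R2)
  calc (T.card : ℝ) ≤ 40 * ((Y : ℝ) ^ δ) ^ 2 * Q ^ 6 := hTc
    _ ≤ ((Y : ℝ) ^ δ * ((Y : ℝ) ^ δ) ^ 2) * (Y : ℝ) ^ (ε / 4 * (1 + δ)) :=
        mul_le_mul (mul_le_mul_of_nonneg_right h40 (by positivity)) hQ6 (by positivity)
          (by positivity)
    _ = (Y : ℝ) ^ (δ + (δ + δ) + ε / 4 * (1 + δ)) := by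
        rw [pow_two, ← Real.rpow_add hY0, ← Real.rpow_add hY0, ← Real.rpow_add hY0]
    _ ≤ (Y : ℝ) ^ ε := Real.rpow_le_rpow_of_exponent_le hY1 (by nlinarith)

end Pool.Agent.Results.MP_90787a_nt.LargeDegreeAllFields
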