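import Mathlib
import Pool.Agent.N820.SU.All
import Pool.Agent.N891.OR.Fam

/-!
# Preperiodic points of bounded degree of the members of every non-isotrivial family of rational maps
over a number field along random orbits of thin groups

The parameters of the members are the successive points of the random orbit of a vector under a
finite set of integral matrices which generates the special linear group modulo all `q` prime to some
`q₀`, for example any finite set that generates a Zariski dense subgroup, possibly of infinite index.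
Almost surely, for ALL non-isotrivial families of rational maps whose generic member is determined by
its multipliers up to finitely many choices, the bound `N(B, d, A)`, which does not depend on the
family and the field, holds for the number of the preperiodic points of degree at most `B` of 100% of
the members along the orbit. The exceptional parameters form a pronull set.

Proof. The bound for the generic member is due to helper820 (`Pool.Agent.N820.SU`). The transfer to
the members (`Pool.Agent.Y706`, `Pool.Agent.N455.TX` of helper455) holds for all notions of density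
with Hilbert's irreducibility theorem, and the pronull sets are the null sets of such notions
(`Pool.Agent.N891.OR.Inst`, helper891, with `Pool.Agent.N455.HT`). Random orbits almost never visit
pronull sets (`Pool.Agent.N24.RW`, project of helper24).
-/

set_option autoImplicit false

namespace Pool.Agent.Results.MP_90787a_nt.RandomOrbits

open Polynomial NumberField Filter Topology MeasureTheory
open Pool.Agent.N24.RW (ProNull Walk orb words)

/-- The self-map of the projective line `K ∪ {∞}`, where `none` is `∞`, given by the rational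
function `p / q`, where `p` and `q` are coprime and `d` is the larger of their degrees: it sends
`x` to `p(x) / q(x)`, or to `∞` when `q(x) = 0`, and it sends `∞` to the quotient of the
coefficients of degree `d`, or to `∞` when that of `q` is zero. -/
noncomputable def mapP1 {K : Type*} [Field K] (p q : K[X]) (d : ℕ) : Option K → Option K
  | some x => by classical exact if q.eval x = 0 then none else some (p.eval x / q.eval x)
  | none => by classical exact if q.coeff d = 0 then none else some (p.coeff d / q.coeff d)

/-- The Möbius transformation `x ↦ (a x + b) / (c x + e)` of the projective line `K ∪ {∞}`. -/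
noncomputable def moebius {K : Type*} [Field K] (a b c e : K) : Option K → Option K
  | some x => by classical exact if c * x + e = 0 then none else some ((a * x + b) / (c * x + e))
  | none => by classical exact if c = 0 then none else some (a / c)

/-- `l` is a multiplier of the `n`-th iterate of the map `f = p / q` of degree `d`: for some Möbius
transformation `φ` and some coprime polynomials `P, Q` with larger degree `d ^ n` and `P(0) = 0`
one has `(P / Q) ∘ φ = φ ∘ f ^ n` on the projective line, and `l = P'(0) / Q(0)`. So `φ⁻¹(0)` is a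
fixed point of the `n`-th iterate and `l` is the derivative of the iterate at this fixed point, in
the coordinate `φ`. -/
def IsMultiplier {K : Type*} [Field K] (p q : K[X]) (d n : ℕ) (l : K) : Prop :=
  ∃ a b c e : K, a * e - b * c ≠ 0 ∧ ∃ P Q : K[X], IsCoprime P Q ∧
    max P.natDegree Q.natDegree = d ^ n ∧ P.coeff 0 = 0 ∧ l = P.coeff 1 / Q.coeff 0 ∧
    ∀ z, mapP1 P Q (d ^ n) (moebius a b c e z) = moebius a b c e ((mapP1 p q d)^[n] z)

/-- The maps `p / q` and `u / w` of degree `d` have the same set of multipliers for the `n`-th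
iterate, for all `n` with `1 ≤ n ≤ B`. -/
def SameMultipliers {K : Type*} [Field K] (p q u w : K[X]) (d B : ℕ) : Prop :=
  ∀ n, 1 ≤ n → n ≤ B → ∀ l, IsMultiplier u w d n l ↔ IsMultiplier p q d n l

/-- The maps `p / q` and `u / w` of degree `d` are conjugate by a Möbius transformation. -/
def AreConjugate {K : Type*} [Field K] (p q u w : K[X]) (d : ℕ) : Prop :=
  ∃ a b c e : K, a * e - b * c ≠ 0 ∧
    ∀ z, mapP1 u w d (moebius a b c e z) = moebius a b c e (mapP1 p q d z)

/-- The multiplier fibre of the map `p / q` of degree `d` is finite at level `B`: the rational maps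
of degree `d` over `K` which have the same multipliers as `p / q` for all iterates up to the
`B`-th form at most `B` conjugacy classes (that is, among any `B + 1` of them there are two which
are conjugate). -/
def FiniteFibre {K : Type*} [Field K] (p q : K[X]) (d B : ℕ) : Prop :=
  ∀ u w : Fin (B + 1) → K[X], (∀ i, (IsCoprime (u i) (w i) ∧
    max (u i).natDegree (w i).natDegree = d) ∧ SameMultipliers p q (u i) (w i) d B) →
    ∃ i j, i ≠ j ∧ AreConjugate (u i) (w i) (u j) (w j) d

/-- With `φ(x) = (a x + b) / (c x + e)`, the map `p / q` of degree `d` satisfies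
`φ ∘ (p / q) = (u / w) ∘ φ` for some `a, b, c, e` in `K` with `a e ≠ b c` and some polynomials
`u, w` of degree at most `d`, not both zero, with coefficients algebraic over `F`; the equation is
written with denominators cleared. -/
def IsotrivialOver (F : Type*) {K : Type*} [Field F] [Field K] [Algebra F K] (p q : K[X])
    (d : ℕ) : Prop :=
  ∃ a b c e : K, a * e - b * c ≠ 0 ∧ ∃ u w : K[X], (u ≠ 0 ∨ w ≠ 0) ∧
    u.natDegree ≤ d ∧ w.natDegree ≤ d ∧ (∀ n, IsAlgebraic F (u.coeff n)) ∧
    (∀ n, IsAlgebraic F (w.coeff n)) ∧
    (C a * p + C b * q) * ∑ i ∈ Finset.range (d + 1),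
      C (w.coeff i) * (C a * X + C b) ^ i * (C c * X + C e) ^ (d - i) =
    (C c * p + C e * q) * ∑ i ∈ Finset.range (d + 1),
      C (u.coeff i) * (C a * X + C b) ^ i * (C c * X + C e) ^ (d - i)

/-- The field `k(t_1, ..., t_m)`. -/
abbrev RF (k : Type) [Field k] (m : ℕ) : Type := FractionRing (MvPolynomial (Fin m) k)

/-- The subfield `k(t_j : j ≠ i)` of the field `k(t_1, ..., t_m)`. -/
noncomputable def others (k : Type) [Field k] {m : ℕ} (i : Fin m) : Subfield (RF k m) :=
  (IntermediateField.adjoin k {x : RF k m | ∃ j, j ≠ i ∧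
    x = algebraMap (MvPolynomial (Fin m) k) (RF k m) (MvPolynomial.X j)}).toSubfield

/-- `P ∈ k[t_1, ..., t_m][x]` as a polynomial over `k(t_1, ..., t_m)`. -/
noncomputable def generic {k : Type} [Field k] {m : ℕ} (P : (MvPolynomial (Fin m) k)[X]) :
    (RF k m)[X] :=
  P.map (algebraMap (MvPolynomial (Fin m) k) (RF k m))

/-- `P ∈ k[t_1, ..., t_m][x]` as a polynomial over an algebraic closure of `k(t_1, ..., t_m)`. -/
noncomputable def genBar {k : Type} [Field k] {m : ℕ} (P : (MvPolynomial (Fin m) k)[X]) :
    (AlgebraicClosure (RF k m))[X] :=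
  (generic P).map (algebraMap (RF k m) (AlgebraicClosure (RF k m)))

/-- The specialisation of `P ∈ k[t_1, ..., t_m][x]` at `t = (v_1 / v_0, ..., v_m / v_0)`. -/
noncomputable def special {k : Type} [Field k] {m : ℕ} (v : Fin (m + 1) → 𝓞 k)
    (P : (MvPolynomial (Fin m) k)[X]) : k[X] :=
  P.map (MvPolynomial.eval fun l : Fin m =>
    algebraMap (𝓞 k) k (v l.succ) / algebraMap (𝓞 k) k (v 0))

/-- The preperiodic points of degree at most `B` over `k` of the map `p / q` of degree `d`, in the
projective line over an algebraic closure of `k`. -/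
noncomputable def preper {k : Type} [Field k] (p q : k[X]) (d B : ℕ) :
    Set (Option (AlgebraicClosure k)) :=
  {z | (Set.range fun n : ℕ => (mapP1 (p.map (algebraMap k (AlgebraicClosure k)))
      (q.map (algebraMap k (AlgebraicClosure k))) d)^[n] z).Finite ∧
    ∀ x, z = some x → (minpoly k x).natDegree ≤ B}

/-- The vector of integers of `k` with the coordinates `c` with respect to the integral basis `ω`. -/
noncomputable def point {k : Type} [Field k] {J : Type} [Fintype J] (ω : Module.Basis J ℤ (𝓞 k))
    {m : ℕ} (c : Fin (m + 1) × J → ℤ) : Fin (m + 1) → 𝓞 k :=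
  fun l => ∑ j, (c (l, j) : 𝓞 k) * ω j

/-- The member of the family `P / Q` at `t = (v_1 / v_0, ..., v_m / v_0)` is defined, it has degree `d`
and at most `C` preperiodic points of degree at most `B` over `k`. -/
def Good {k : Type} [Field k] {m : ℕ} (P Q : (MvPolynomial (Fin m) k)[X]) (d B C : ℕ)
    (v : Fin (m + 1) → 𝓞 k) : Prop :=
  v 0 ≠ 0 ∧ IsCoprime (special v P) (special v Q) ∧
    max (special v P).natDegree (special v Q).natDegree = d ∧
    (preper (special v P) (special v Q) d B).encard ≤ (C : ℕ∞)

/-- The family `P / Q` has degree `d`, it is, over an algebraic closure of `k(t_1, ..., t_m)`, for some `i` not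
conjugate to a map with coefficients algebraic over `k(t_j : j ≠ i)`, and its multiplier fibre is
finite at level `A`. -/
def IsFamily {k : Type} [Field k] {m : ℕ} (P Q : (MvPolynomial (Fin m) k)[X]) (d A : ℕ) : Prop :=
  (max P.natDegree Q.natDegree = d ∧ IsCoprime (generic P) (generic Q)) ∧
    (∃ i : Fin m, ¬ IsotrivialOver (others k i) (genBar P) (genBar Q) d) ∧
    FiniteFibre (genBar P) (genBar Q) d A

/-- The property `p` holds for 100% of the natural numbers. -/
def MostTimes (p : ℕ → Prop) : Prop :=
  Tendsto (fun T : ℕ => (({n : ℕ | n < T ∧ p n}.ncard : ℕ) : ℝ) / (T : ℝ)) atTop (𝓝 1)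

theorem countable_mv (σ R : Type) [Countable σ] [CommRing R] [Countable R] :
    Countable (MvPolynomial σ R) := by
  rw [← Cardinal.mk_le_aleph0_iff]
  refine (MvPolynomial.cardinalMk_le_max (σ := σ) (R := R)).trans ?_
  exact max_le (max_le (Cardinal.mk_le_aleph0_iff.2 inferInstance)
    (Cardinal.mk_le_aleph0_iff.2 inferInstance)) le_rfl

theorem countable_poly (R : Type) [CommRing R] [Countable R] : Countable R[X] := by
  rw [← Cardinal.mk_le_aleph0_iff]
  refine (Polynomial.cardinalMk_le_max (R := R)).trans ?_
  exact max_le (Cardinal.mk_le_aleph0_iff.2 inferInstance) le_rfl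

theorem most_of_never {p : ℕ → Prop}
    (h : Tendsto (fun N : ℕ => (({n : ℕ | n < N ∧ ¬ p n}.ncard : ℕ) : ℝ) / (N : ℝ)) atTop (𝓝 0)) :
    MostTimes p := by
  have h1 := h.const_sub 1
  rw [sub_zero] at h1
  refine h1.congr' ?_
  filter_upwards [eventually_ge_atTop 1] with N hN
  have hN0 : (N : ℝ) ≠ 0 := by
    have : (N : ℕ) ≠ 0 := by omega
    exact_mod_cast this
  have h2 : {n : ℕ | n < N ∧ p n} ∪ {n : ℕ | n < N ∧ ¬ p n} = Set.Iio N := by
    ext n
    simp only [Set.mem_union, Set.mem_ofPred_eq, Set.mem_Iio]
    tauto
  have h3 : Disjoint {n : ℕ | n < N ∧ p n} {n : ℕ | n < N ∧ ¬ p n} := by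
    rw [Set.disjoint_left]
    rintro n ⟨_, hn⟩ ⟨_, hn'⟩
    exact hn' hn
  have hf : ∀ q : ℕ → Prop, {n : ℕ | n < N ∧ q n}.Finite := fun q =>
    (Set.finite_Iio N).subset fun n hn => hn.1
  have h4 := Set.ncard_union_eq h3 (hf _) (hf _)
  rw [h2, Set.ncard_eq_toFinset_card', Set.toFinset_Iio, Nat.card_Iio] at h4
  have h5 : (N : ℝ) = (({n : ℕ | n < N ∧ p n}.ncard : ℕ) : ℝ) +
      (({n : ℕ | n < N ∧ ¬ p n}.ncard : ℕ) : ℝ) := by exact_mod_cast h4
  rw [eq_div_iff hN0, sub_mul, div_mul_cancel₀ _ hN0]
  linarith

lemma e_map {K : Type*} [Field K] (p q : K[X]) (d : ℕ) :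
    Pool.Agent.N820.SU.mapP1 p q d = mapP1 p q d := by
  funext z
  cases z <;> rfl

lemma e_mob {K : Type*} [Field K] (a b c e : K) :
    Pool.Agent.N820.SU.mob a b c e = moebius a b c e := by
  funext z
  cases z <;> rfl

lemma e_mult {K : Type*} [Field K] (p q : K[X]) (d n : ℕ) (l : K) :
    Pool.Agent.N820.SU.IsMult p q d n l ↔ IsMultiplier p q d n l := by
  unfold Pool.Agent.N820.SU.IsMult IsMultiplier
  simp only [e_map, e_mob]

lemma e_few {K : Type*} [Field K] (p q : K[X]) (d B : ℕ) (h : FiniteFibre p q d B) :
    Pool.Agent.N820.SU.Few p q d B := by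
  intro u w huw
  obtain ⟨i, j, hij, hc⟩ := h u w fun i => ⟨(huw i).1, fun n h1 h2 l => by
    rw [← e_mult, ← e_mult]
    exact (huw i).2 n h1 h2 l⟩
  refine ⟨i, j, hij, ?_⟩
  unfold Pool.Agent.N820.SU.ConjP1
  simp only [e_map, e_mob]
  exact hc

/-- There is a function `N` such that the following holds for every number field `k` (of any
degree), every integral basis `ω` of `k` and every `m`. (1) Let `P / Q` be a rational map of degree
`d ≥ 2` over `k(t_1, ..., t_m)`, `P, Q ∈ k[t_1, ..., t_m][x]`, such that over an algebraic closure of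
`k(t_1, ..., t_m)`
* `P / Q` is, for some `i`, not conjugate to a map with coefficients algebraic over
  `k(t_j : j ≠ i)`, and
* the multiplier fibre of `P / Q` is finite at level `A`.
Let `B ≥ 1`. Then the vectors of integers `c` such that `v_0 = 0` or the member at
`t = (v_1 / v_0, ..., v_m / v_0)` has not degree `d` or more than `N(B, d, A)` preperiodic points of
degree at most `B` over `k`, where `v` is the vector of integers of `k` with the coordinates `c`, form
a pronull set. (2) Let `W` be a finite family of integral matrices of determinant one, of size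
`(m + 1) [k : ℚ]`, which generates the special linear group modulo all `q` prime to some `q₀`, and
`u ≠ 0`. For almost every infinite word in the matrices, for ALL such families `P / Q` and all `d`, `B`,
`A` the bound holds for the members at the `n`-th points of the orbit of `u` for 100% of the `n`. -/
theorem result : ∃ N : ℕ → ℕ → ℕ → ℕ, ∀ (k : Type) [Field k] [NumberField k] (J : Type)
    [Fintype J] [DecidableEq J] (ω : Module.Basis J ℤ (𝓞 k)) (m : ℕ),
    (∀ d B A : ℕ, 2 ≤ d → 1 ≤ B → ∀ P Q : (MvPolynomial (Fin m) k)[X], IsFamily P Q d A →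
      ProNull {c : Fin (m + 1) × J → ℤ | ¬ Good P Q d B (N B d A) (point ω c)}) ∧
    ∀ (W : Walk (Fin (m + 1) × J)) (u : Fin (m + 1) × J → ℤ), u ≠ 0 → ∀ᵐ w ∂(words W.m),
      ∀ d B A : ℕ, 2 ≤ d → 1 ≤ B → ∀ P Q : (MvPolynomial (Fin m) k)[X], IsFamily P Q d A →
      MostTimes fun n => Good P Q d B (N B d A) (point ω (orb W u w n)) := by
  have e : ∀ (K : Type) [Field K] (p q : K[X]) (d : ℕ),
      mapP1 p q d = Pool.Agent.W277.UH.ratP1 p q d := by
    intro K _ p q d
    funext z
    cases z <;> rfl
  obtain ⟨N, hN⟩ := Pool.Agent.N891.OYF.t_FAMP Pool.Agent.N820.SU.All.subp.{0, 0}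
  refine ⟨N, ?_⟩
  intro k _ _ J _ _ ω m
  have key : ∀ d B A : ℕ, 2 ≤ d → 1 ≤ B → ∀ P Q : (MvPolynomial (Fin m) k)[X], IsFamily P Q d A →
      ProNull {c : Fin (m + 1) × J → ℤ | ¬ Good P Q d B (N B d A) (point ω c)} := by
    rintro d B A hd hB P Q ⟨⟨hmax, hco⟩, ⟨i, hiso⟩, hfin⟩
    have h := hN k J ω d B A hd hB m P Q i hmax hco hiso (e_few _ _ _ _ hfin)
    have hp : ∀ c : Fin (m + 1) × J → ℤ, point ω c = Pool.Agent.Y706.vec ω c := by
      intro c
      funext l
      exact Finset.sum_congr rfl fun j _ => mul_comm _ _
    have e3 : ∀ p q : k[X], preper p q d B = Pool.Agent.Y706.BI.preperB p q d B := by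
      intro p q
      unfold preper Pool.Agent.Y706.BI.preperB
      rw [e]
    have h4 : {c : Fin (m + 1) × J → ℤ | ¬ Good P Q d B (N B d A) (point ω c)} =
        {c : Fin (m + 1) × J → ℤ | ¬ Good P Q d B (N B d A) (Pool.Agent.Y706.vec ω c)} := by
      ext c
      rw [Set.mem_ofPred_eq, Set.mem_ofPred_eq, hp]
    rw [h4]
    unfold Good
    simp only [e3]
    exact h
  refine ⟨key, ?_⟩
  intro W u hu
  obtain ⟨j0⟩ : Nonempty J := ω.index_nonempty
  have hk : Countable k := (Module.finBasis ℚ k).equivFun.injective.countable
  have c1 : Countable (MvPolynomial (Fin m) k) := countable_mv _ _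
  have c2 : Countable (MvPolynomial (Fin m) k)[X] := countable_poly _
  rcases Nat.eq_zero_or_pos m with hm | hm
  · subst hm
    refine Filter.Eventually.of_forall fun w d B A hd hB P Q h => ?_
    obtain ⟨i, _⟩ := h.2.1
    exact i.elim0
  have hcard : 2 ≤ Fintype.card (Fin (m + 1) × J) := by
    rw [Fintype.card_prod, Fintype.card_fin]
    have hJ : 0 < Fintype.card J := Fintype.card_pos_iff.2 ⟨j0⟩
    nlinarith
  simp only [ae_all_iff]
  intro d B A hd hB P Q hPQ
  filter_upwards [Pool.Agent.N24.RW.main (Fin (m + 1) × J) hcard W u hu _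
    (key d B A hd hB P Q hPQ)] with w hw
  exact most_of_never hw

end Pool.Agent.Results.MP_90787a_nt.RandomOrbits
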